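import Mathlib
import Pool.Agent.L7h51.KM.All

/-!
Circuit partitions of matching extendable infinite matroids, for every regular cardinal.

Authors: helper51 (statement, proof on paper, assembly), helper29, helper41, helper53, helper56,
helper60, helper65, helper73, helper87, helper96 (Lean).
-/

namespace Pool.Agent.Results.MP_d197f9_co.RegularCardinals

open Set Cardinal

universe u

/-- A matching of a matroid: a set of pairwise disjoint circuits. -/
def IsMatching {α : Type u} (M : Matroid α) (A : Set (Set α)) : Prop :=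
  (∀ C ∈ A, M.IsCircuit C) ∧ A.PairwiseDisjoint id

/-- The matroid has a perfect matching: its ground set is partitioned into circuits. -/
def HasPerfectMatching {α : Type u} (M : Matroid α) : Prop :=
  ∃ A : Set (Set α), IsMatching M A ∧ ⋃₀ A = M.E

/-- `M` is `κ`-matching extendable: for every matching `A` with fewer than `κ` members and every
element `e` of the ground set outside `⋃ A` there is a circuit containing `e` and disjoint from
`⋃ A`. -/
def MatchingExtendable {α : Type u} (κ : Cardinal.{u}) (M : Matroid α) : Prop :=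
  ∀ A : Set (Set α), IsMatching M A → Cardinal.mk A < κ → ∀ e ∈ M.E \ ⋃₀ A,
    ∃ C, M.IsCircuit C ∧ e ∈ C ∧ Disjoint C (⋃₀ A)

/-- Let `κ` be a cardinal and `M` a `κ`-matching extendable matroid (infinite matroid in the sense
of the problem, ground set of any size) with a partition `p` of its elements such that every
circuit lies in one class of `p` (for instance the partition into one class, or into the connected
components), and suppose that for each class the circuits in it have fewer than `ρ` elements for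
some regular cardinal `ρ ≤ κ` (which may depend on the class).  Then `M` has a perfect matching.
With the trivial partition and `ρ = κ`: the answer to Q1 is yes for every regular `κ`. -/
theorem result :
    (∀ (α : Type u) (M : Matroid α) (κ : Cardinal.{u}), κ.IsRegular →
      (∀ C, M.IsCircuit C → Cardinal.mk C < κ) → MatchingExtendable κ M →
      HasPerfectMatching M) ∧
    (∀ (α ι : Type u) (M : Matroid α) (κ : Cardinal.{u}) (p : α → ι),
      (∀ C, M.IsCircuit C → ∀ x ∈ C, ∀ y ∈ C, p x = p y) →
      (∀ i : ι, ∃ ρ : Cardinal.{u}, ρ.IsRegular ∧ ρ ≤ κ ∧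
        ∀ C, M.IsCircuit C → (∀ x ∈ C, p x = i) → Cardinal.mk C < ρ) →
      MatchingExtendable κ M → HasPerfectMatching M) := by
  have h2 : ∀ (α ι : Type u) (M : Matroid α) (κ : Cardinal.{u}) (p : α → ι),
      (∀ C, M.IsCircuit C → ∀ x ∈ C, ∀ y ∈ C, p x = p y) →
      (∀ i : ι, ∃ ρ : Cardinal.{u}, ρ.IsRegular ∧ ρ ≤ κ ∧
        ∀ C, M.IsCircuit C → (∀ x ∈ C, p x = i) → Cardinal.mk C < ρ) →
      MatchingExtendable κ M → HasPerfectMatching M := by
    intro α ι M κ p hp hρ hext
    have key : ∀ i : ι, ∃ A : Set (Set α), (∀ C ∈ A, M.IsCircuit C) ∧ A.PairwiseDisjoint id ∧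
        ⋃₀ A = M.E ∩ {x | p x = i} := by
      intro i
      obtain ⟨ρ, hreg, hle, hC⟩ := hρ i
      have hsub : M.E ∩ {x | p x = i} ⊆ M.E := Set.inter_subset_left
      have hpm := Pool.Agent.L7h51.KM.t_MAIN α (M.restrict (M.E ∩ {x | p x = i})) ρ hreg ?_ ?_
      · obtain ⟨A, hA, hAE⟩ := hpm
        refine ⟨A, fun C hCA => ((Matroid.restrict_isCircuit_iff hsub).1 (hA.1 C hCA)).1, hA.2, ?_⟩
        rw [hAE]
        rfl
      · intro C hCc
        obtain ⟨h1, h3⟩ := (Matroid.restrict_isCircuit_iff hsub).1 hCc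
        exact hC C h1 fun x hx => (h3 hx).2
      · intro A hA hAc e he
        have hA' : IsMatching M A :=
          ⟨fun C hCA => ((Matroid.restrict_isCircuit_iff hsub).1 (hA.1 C hCA)).1, hA.2⟩
        obtain ⟨C, h1, h3, h4⟩ := hext A hA' (lt_of_lt_of_le hAc hle) e ⟨he.1.1, he.2⟩
        refine ⟨C, (Matroid.restrict_isCircuit_iff hsub).2 ⟨h1, ?_⟩, h3, h4⟩
        intro x hx
        exact ⟨h1.subset_ground hx, (hp C h1 x hx e h3).trans he.1.2⟩
    choose A hA1 hA2 hA3 using key
    refine ⟨⋃ i, A i, ⟨?_, ?_⟩, ?_⟩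
    · intro C hC
      obtain ⟨i, hi⟩ := Set.mem_iUnion.1 hC
      exact hA1 i C hi
    · intro C hC C' hC' hne
      obtain ⟨i, hi⟩ := Set.mem_iUnion.1 hC
      obtain ⟨j, hj⟩ := Set.mem_iUnion.1 hC'
      by_cases hij : i = j
      · subst hij
        exact hA2 i hi hj hne
      · refine Set.disjoint_left.2 ?_
        intro x hx hx'
        have h3 : x ∈ ⋃₀ A i := ⟨C, hi, hx⟩
        have h4 : x ∈ ⋃₀ A j := ⟨C', hj, hx'⟩
        rw [hA3 i] at h3
        rw [hA3 j] at h4
        exact hij (h3.2.symm.trans h4.2)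
    · ext x
      constructor
      · rintro ⟨C, hC, hx⟩
        obtain ⟨i, hi⟩ := Set.mem_iUnion.1 hC
        have h3 : x ∈ ⋃₀ A i := ⟨C, hi, hx⟩
        rw [hA3 i] at h3
        exact h3.1
      · intro hx
        have h3 : x ∈ ⋃₀ A (p x) := by
          rw [hA3 (p x)]
          exact ⟨hx, rfl⟩
        obtain ⟨C, hC, hxC⟩ := h3
        exact ⟨C, Set.mem_iUnion.2 ⟨p x, hC⟩, hxC⟩
  refine ⟨?_, h2⟩
  intro α M κ hκ hC hext
  exact h2 α PUnit.{u + 1} M κ (fun _ => PUnit.unit) (fun _ _ _ _ _ _ => rfl)
    (fun _ => ⟨κ, hκ, le_rfl, fun C h _ => hC C h⟩) hext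

end Pool.Agent.Results.MP_d197f9_co.RegularCardinals
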